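import Mathlib

set_option autoImplicit false

/-!
# Hyperbolic `(n+1)`-space (upper half-space model) and the groups `O⁺(U ⊕ L)`

`L` is the lattice generated by a system `β` of `n` vectors of `ℝⁿ`. Points are pairs `(z, r)` with
`z ∈ ℝⁿ` and `r` a real number; hyperbolic `(n+1)`-space is the part `0 < r`. Lorentz space is
`ℝ × ℝ × ℝⁿ` with the form `⟨v, v'⟩ - a b' - b a'`.
-/

namespace Pool.Agent.Helper10.FamP

open MeasureTheory

variable {n : ℕ}

/-- ambient space `ℝⁿ × ℝ` of the upper half-space model of hyperbolic `(n+1)`-space -/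
abbrev Pt (n : ℕ) := (Fin n → ℝ) × ℝ

/-- Lorentz space `ℝ × ℝ × ℝⁿ` -/
abbrev LV (n : ℕ) := ℝ × ℝ × (Fin n → ℝ)

/-- hyperbolic `(n+1)`-space, the upper half-space -/
def UH (n : ℕ) : Set (Pt n) := {p | 0 < p.2}

/-- the standard inner product of `ℝⁿ` -/
def dot (v w : Fin n → ℝ) : ℝ := ∑ i, v i * w i

/-- the Lorentzian bilinear form `⟨v, v'⟩ - a b' - b a'` of `(a, b, v)` and `(a', b', v')` -/
def form (x y : LV n) : ℝ := dot x.2.2 y.2.2 - x.1 * y.2.1 - x.2.1 * y.1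

/-- the vector of norm `-1` representing `(z, r)`: `(1, (|z|² + r²) / 2, z) / r` -/
noncomputable def vec (p : Pt n) : LV n :=
  (1 / p.2, (dot p.1 p.1 + p.2 ^ 2) / (2 * p.2), fun i => p.1 i / p.2)

/-- the point `(v / a, 1 / a)` represented by the vector `(a, b, v)` of norm `-1` -/
noncomputable def pnt (x : LV n) : Pt n := (fun i => x.2.2 i / x.1, 1 / x.1)

/-- the action of a bijection of Lorentz space on the upper half-space -/
noncomputable def act (g : Equiv.Perm (LV n)) (p : Pt n) : Pt n := pnt (g (vec p))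

/-- the lattice `L` of all integral combinations of the vectors `β i` -/
def latOf (β : Fin n → Fin n → ℝ) : Set (Fin n → ℝ) :=
  {x | ∃ m : Fin n → ℤ, ∀ j, x j = ∑ i, (m i : ℝ) * β i j}

/-- the lattice `U ⊕ L = ℤ ⊕ ℤ ⊕ L` in Lorentz space -/
def lat (β : Fin n → Fin n → ℝ) : Set (LV n) :=
  {x | (∃ a : ℤ, x.1 = a) ∧ (∃ b : ℤ, x.2.1 = b) ∧ x.2.2 ∈ latOf β}

/-- `g` preserves the Lorentzian form (so it is linear), the future cone and the lattice -/
def IsAut (β : Fin n → Fin n → ℝ) (g : Equiv.Perm (LV n)) : Prop :=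
  (∀ x y, form (g x) (g y) = form x y) ∧ (∀ x, form x x < 0 → (0 < (g x).1 ↔ 0 < x.1)) ∧
    ∀ x, g x ∈ lat β ↔ x ∈ lat β

theorem IsAut.mul {β : Fin n → Fin n → ℝ} {g h : Equiv.Perm (LV n)} (hg : IsAut β g)
    (hh : IsAut β h) : IsAut β (g * h) := by
  obtain ⟨hg1, hg2, hg3⟩ := hg
  obtain ⟨hh1, hh2, hh3⟩ := hh
  refine ⟨fun x y => ?_, fun x hx => ?_, fun x => ?_⟩
  · rw [Equiv.Perm.mul_apply, Equiv.Perm.mul_apply, hg1, hh1]
  · rw [Equiv.Perm.mul_apply, hg2 _ (by rwa [hh1]), hh2 x hx]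
  · rw [Equiv.Perm.mul_apply, hg3, hh3]

theorem IsAut.one {β : Fin n → Fin n → ℝ} : IsAut β 1 :=
  ⟨fun _ _ => rfl, fun _ _ => Iff.rfl, fun _ => Iff.rfl⟩

theorem IsAut.inv {β : Fin n → Fin n → ℝ} {g : Equiv.Perm (LV n)} (hg : IsAut β g) :
    IsAut β g⁻¹ := by
  obtain ⟨hg1, hg2, hg3⟩ := hg
  have key : ∀ x, g (g⁻¹ x) = x := fun x => g.apply_symm_apply x
  have hi : ∀ x y, form (g⁻¹ x) (g⁻¹ y) = form x y := fun x y => by
    rw [← hg1 (g⁻¹ x) (g⁻¹ y), key, key]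
  refine ⟨hi, fun x hx => ?_, fun x => ?_⟩
  · have h := hg2 (g⁻¹ x) (by rwa [hi])
    rw [key] at h
    exact h.symm
  · rw [← hg3 (g⁻¹ x), key]

/-- the group `O⁺(U ⊕ L)` -/
def O (β : Fin n → Fin n → ℝ) : Subgroup (Equiv.Perm (LV n)) where
  carrier := {g | IsAut β g}
  mul_mem' := IsAut.mul
  one_mem' := IsAut.one
  inv_mem' := IsAut.inv

/-- the translation `(z, r) ↦ (z + v, r)` (an Eichler transformation), as a map -/
noncomputable def tr (v : Fin n → ℝ) (x : LV n) : LV n :=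
  (x.1, x.2.1 + dot x.2.2 v + x.1 * (dot v v / 2), fun i => x.2.2 i + x.1 * v i)

theorem tr_tr (v : Fin n → ℝ) (x : LV n) : tr v (tr (-v) x) = x := by
  unfold tr dot
  refine Prod.ext rfl (Prod.ext ?_ ?_)
  · simp only [Pi.neg_apply, mul_neg, Finset.sum_neg_distrib, add_mul, Finset.sum_add_distrib,
      neg_mul, neg_neg, mul_assoc, ← Finset.mul_sum]
    ring
  · funext i
    simp

theorem tr_tr' (v : Fin n → ℝ) (x : LV n) : tr (-v) (tr v x) = x := by
  have := tr_tr (-v) x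
  rwa [neg_neg] at this

/-- the translation `(z, r) ↦ (z + v, r)` (an Eichler transformation) -/
noncomputable def T (v : Fin n → ℝ) : Equiv.Perm (LV n) := ⟨tr v, tr (-v), tr_tr' v, tr_tr v⟩

/-- directional derivative -/
noncomputable def pd (e : Pt n) (f : Pt n → ℂ) (p : Pt n) : ℂ := fderiv ℝ f p e

/-- the coordinate directions of `ℝⁿ` in `ℝⁿ × ℝ` -/
def dir (k : Fin n) : Pt n := (fun i => if i = k then 1 else 0, 0)

/-- the vertical direction -/
def er : Pt n := (0, 1)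

/-- hyperbolic Laplacian `r² (∑ of the n+1 second coordinate derivatives) - (n-1) r ∂/∂r` -/
noncomputable def lap (f : Pt n → ℂ) (p : Pt n) : ℂ :=
  (p.2 : ℂ) ^ 2 * ((∑ k : Fin n, pd (dir k) (pd (dir k) f) p) + pd er (pd er f) p)
    - ((n : ℂ) - 1) * (p.2 : ℂ) * pd er f p

/-- a rank `n`, an `n × n` Cartan matrix, and a constant `κ` -/
structure Row where
  /-- the rank -/
  n : ℕ
  /-- the Cartan matrix, the Gram matrix of the simple roots -/
  C : Matrix (Fin n) (Fin n) ℤ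
  /-- the constant -/
  kap : ℕ

/-- the eight root lattices, with their constants -/
def table : List Row :=
  [⟨3, CartanMatrix.A 3, 37⟩, ⟨4, CartanMatrix.A 4, 29⟩, ⟨5, CartanMatrix.A 5, 18⟩,
   ⟨5, CartanMatrix.D 5, 26⟩, ⟨6, CartanMatrix.D 6, 18⟩, ⟨6, CartanMatrix.E₆, 24⟩,
   ⟨7, CartanMatrix.E₇, 17⟩, ⟨8, CartanMatrix.E₈, 32⟩]

end Pool.Agent.Helper10.FamP
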